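import Pool.Agent.CI.K.Fr

/-!
# Project CI, core: a recursion lemma and sigma-algebras of regular sets
-/

set_option autoImplicit false
set_option linter.unusedSectionVars false
set_option linter.unusedVariables false

open Set

namespace CI

/-- recursion on a well-order: legitimate choices can be continued -/
theorem wf_rec {ι : Type*} [LinearOrder ι] [WellFoundedLT ι] {D : Type*} [Nonempty D]
    (L : ι → (ι → D) → Prop)
    (hc : ∀ a f g, (∀ b ≤ a, f b = g b) → L a f → L a g)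
    (hs : ∀ a f, (∀ b < a, L b f) → ∃ d, ∀ g, (∀ b < a, g b = f b) → g a = d → L a g) :
    ∃ f, ∀ a, L a f := by
  classical
  let d0 : D := Classical.choice inferInstance
  let ex : ∀ (a : ι) (f : ∀ b : ι, b < a → D), ι → D := fun a f b => if h : b < a then f b h else d0
  let F : ∀ a : ι, (∀ b : ι, b < a → D) → D := fun a f =>
    if h : ∃ d, ∀ g : ι → D, (∀ b < a, g b = ex a f b) → g a = d → L a g then h.choose else d0
  let f : ι → D := (WellFounded.fix (wellFounded_lt) F)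
  have hf : ∀ a, f a = F a (fun b _ => f b) := fun a => WellFounded.fix_eq _ _ _
  refine ⟨f, fun a => ?_⟩
  induction a using WellFoundedLT.induction with
  | ind a ih =>
    obtain ⟨d, hd⟩ := hs a f ih
    have hex : ∃ d, ∀ g : ι → D, (∀ b < a, g b = ex a (fun b _ => f b) b) → g a = d → L a g := by
      refine ⟨d, fun g hg hga => hd g (fun b hb => ?_) hga⟩
      rw [hg b hb]
      simp only [ex, dif_pos hb]
    have h1 : f a = hex.choose := by
      rw [hf a]
      simp only [F]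
      rw [dif_pos hex]
    refine hex.choose_spec f (fun b hb => ?_) h1
    simp only [ex, dif_pos hb]

variable {π Λ : Type} [LinearOrder π] [Zero Λ]

variable (E : π → Λ → Λ → Set (π →₀ Λ))

/-- `W` is a sigma-algebra of regular sets -/
structure SAlg (Z : Set π) (W : Set (Set (π →₀ Λ))) : Prop where
  reg : ∀ X ∈ W, Reg E Z X
  univ_mem : univ ∈ W
  ng_mem : ∀ X ∈ W, ng E Z X ∈ W
  iInter_mem : ∀ X : ℕ → Set (π →₀ Λ), (∀ n, X n ∈ W) → (⋂ n, X n) ∈ W

variable {E}

namespace SAlg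

variable {Z : Set π} {W : Set (Set (π →₀ Λ))}

theorem inter_mem (h : SAlg E Z W) {X Y : Set (π →₀ Λ)} (hX : X ∈ W) (hY : Y ∈ W) :
    X ∩ Y ∈ W := by
  have := h.iInter_mem (fun n => if n = 0 then X else Y) (fun n => by
    by_cases hn : n = 0 <;> simp [hn, hX, hY])
  have e : X ∩ Y = ⋂ n : ℕ, (if n = 0 then X else Y) := by
    ext p
    simp only [mem_inter_iff, mem_iInter]
    constructor
    · rintro ⟨h1, h2⟩ n
      by_cases hn : n = 0 <;> simp [hn, h1, h2]
    · intro h'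
      exact ⟨by simpa using h' 0, by simpa using h' 1⟩
  rw [e]; exact this

theorem iInter_mem' (h : SAlg E Z W) {ι : Type*} [Countable ι] (X : ι → Set (π →₀ Λ))
    (hX : ∀ n, X n ∈ W) : (⋂ n, X n) ∈ W := by
  rcases isEmpty_or_nonempty ι with hi | hi
  · rw [iInter_of_empty]; exact h.univ_mem
  · obtain ⟨f, hf⟩ := exists_surjective_nat ι
    rw [← hf.iInter_comp]
    exact h.iInter_mem _ fun n => hX _

theorem iInter_prop (h : SAlg E Z W) (P : Prop) {X : Set (π →₀ Λ)} (hX : P → X ∈ W) :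
    (⋂ _ : P, X) ∈ W := by
  by_cases hP : P
  · simp only [hP, iInter_true]; exact hX hP
  · simp only [hP, iInter_false]; exact h.univ_mem

/-- the regularised union -/
theorem rUnion_mem [WellFoundedLT π] (h : SAlg E Z W) (hG : Gd E Z) {ι : Type*} [Countable ι]
    (X : ι → Set (π →₀ Λ)) (hX : ∀ n, X n ∈ W) : rg E Z (⋃ n, X n) ∈ W := by
  have e : rg E Z (⋃ n, X n) = ng E Z (⋂ n, ng E Z (X n)) := by
    ext p
    constructor
    · intro hp q hq hq2
      obtain ⟨r, hr, hrX⟩ := hp q hq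
      simp only [mem_iUnion] at hrX
      obtain ⟨i, hi⟩ := hrX
      simp only [mem_iInter] at hq2
      exact hq2 i r hr hi
    · intro hp q hq
      have := hp q hq
      simp only [mem_iInter, not_forall] at this
      obtain ⟨i, hi⟩ := this
      simp only [ng, mem_ofPred_eq, not_forall, not_not] at hi
      obtain ⟨r, hr, hrX⟩ := hi
      exact ⟨r, hr, mem_iUnion.2 ⟨i, hrX⟩⟩
  rw [e]
  exact h.ng_mem _ (h.iInter_mem' _ fun n => h.ng_mem _ (hX n))

theorem empty_mem [WellFoundedLT π] (h : SAlg E Z W) (hG : Gd E Z) : ∅ ∈ W := by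
  have := h.ng_mem _ h.univ_mem
  have e : ng E Z univ = ∅ := by
    ext p
    constructor
    · intro hp; exact hp p (hG.le_refl p) (mem_univ _)
    · intro hp; exact absurd hp (notMem_empty _)
  rwa [e] at this

end SAlg

/-- `X` on `b`, `Y` on the complement of `b` -/
def mixB (E : π → Λ → Λ → Set (π →₀ Λ)) (Z : Set π) (b X Y : Set (π →₀ Λ)) : Set (π →₀ Λ) :=
  {p | (∀ q, leZ E Z q p → q ∈ b → q ∈ X) ∧ ∀ q, leZ E Z q p → q ∈ ng E Z b → q ∈ Y}

theorem mixB_mem [WellFoundedLT π] {Z : Set π} {W : Set (Set (π →₀ Λ))} (h : SAlg E Z W)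
    (hG : Gd E Z) {b X Y : Set (π →₀ Λ)} (hb : b ∈ W) (hX : X ∈ W) (hY : Y ∈ W) :
    mixB E Z b X Y ∈ W := by
  have e : mixB E Z b X Y = ng E Z (b ∩ ng E Z X) ∩ ng E Z (ng E Z b ∩ ng E Z Y) := by
    ext p
    constructor
    · rintro ⟨h1, h2⟩
      constructor
      · rintro q hq ⟨hqb, hqX⟩
        exact hqX q (hG.le_refl q) (h1 q hq hqb)
      · rintro q hq ⟨hqb, hqX⟩
        exact hqX q (hG.le_refl q) (h2 q hq hqb)
    · rintro ⟨h1, h2⟩
      constructor
      · intro q hq hqb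
        refine hG.mem_of_dense (h.reg _ hX) fun r hr => ?_
        have := h1 r (hG.le_trans hr hq)
        by_contra hcon
        exact this ⟨hG.down (h.reg _ hb) hqb hr, fun s hs hsX => hcon ⟨s, hs, hsX⟩⟩
      · intro q hq hqb
        refine hG.mem_of_dense (h.reg _ hY) fun r hr => ?_
        have := h2 r (hG.le_trans hr hq)
        by_contra hcon
        exact this ⟨hG.down (hG.ng_reg (h.reg _ hb)) hqb hr, fun s hs hsX => hcon ⟨s, hs, hsX⟩⟩
  rw [e]
  exact h.inter_mem (h.ng_mem _ (h.inter_mem hb (h.ng_mem _ hX)))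
    (h.ng_mem _ (h.inter_mem (h.ng_mem _ hb) (h.ng_mem _ hY)))

theorem mem_mixB_of_mem [WellFoundedLT π] {Z : Set π} (hG : Gd E Z) {b X Y : Set (π →₀ Λ)}
    (hb : Reg E Z b) (hX : Reg E Z X) {p : π →₀ Λ} (hp : p ∈ b) :
    p ∈ mixB E Z b X Y ↔ p ∈ X := by
  constructor
  · intro h
    exact h.1 p (hG.le_refl p) hp
  · intro h
    refine ⟨fun q hq _ => hG.down hX h hq, fun q hq hqb => ?_⟩
    exact absurd (hG.down hb hp hq) (hqb q (hG.le_refl q))

theorem mem_mixB_of_ng [WellFoundedLT π] {Z : Set π} (hG : Gd E Z) {b X Y : Set (π →₀ Λ)}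
    (hb : Reg E Z b) (hY : Reg E Z Y) {p : π →₀ Λ} (hp : p ∈ ng E Z b) :
    p ∈ mixB E Z b X Y ↔ p ∈ Y := by
  constructor
  · intro h
    exact h.2 p (hG.le_refl p) hp
  · intro h
    refine ⟨fun q hq hqb => ?_, fun q hq _ => hG.down hY h hq⟩
    exact absurd hqb (hp q hq)

/-- every condition can be extended into `b` or into its complement -/
theorem exists_dec {Z : Set π} (hG : Gd E Z) (b : Set (π →₀ Λ)) (p : π →₀ Λ) :
    ∃ q, leZ E Z q p ∧ (q ∈ b ∨ q ∈ ng E Z b) := by
  by_cases h : ∃ q, leZ E Z q p ∧ q ∈ b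
  · obtain ⟨q, hq, hqb⟩ := h
    exact ⟨q, hq, Or.inl hqb⟩
  · exact ⟨p, hG.le_refl p, Or.inr fun q hq hqb => h ⟨q, hq, hqb⟩⟩

/-- finitely many regular sets can be decided -/
theorem exists_decs [WellFoundedLT π] {Z : Set π} (hG : Gd E Z) {ι : Type*} (s : Finset ι)
    (b : ι → Set (π →₀ Λ)) (hb : ∀ i ∈ s, Reg E Z (b i)) (p : π →₀ Λ) :
    ∃ q, leZ E Z q p ∧ ∀ i ∈ s, q ∈ b i ∨ q ∈ ng E Z (b i) := by
  classical
  induction s using Finset.induction_on with
  | empty => exact ⟨p, hG.le_refl p, by simp⟩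
  | insert i s hi ih =>
    obtain ⟨q, hq, hq2⟩ := ih fun j hj => hb j (Finset.mem_insert_of_mem hj)
    obtain ⟨r, hr, hr2⟩ := exists_dec hG (b i) q
    refine ⟨r, hG.le_trans hr hq, fun j hj => ?_⟩
    rcases Finset.mem_insert.1 hj with rfl | hj'
    · exact hr2
    · rcases hq2 j hj' with h | h
      · exact Or.inl (hG.down (hb j hj) h hr)
      · exact Or.inr (hG.down (hG.ng_reg (hb j hj)) h hr)

end CI
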