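import Mathlib

/-!
# Project CI: the closure of a set under operations on sequences
-/

set_option autoImplicit false

open Set Cardinal

namespace CI

/-- arities of the terms -/
private def kcAr {X : Type} (G : Set X) (K : Type) : G ⊕ K → Type
  | Sum.inl _ => Empty
  | Sum.inr _ => ℕ

/-- the value of a term -/
private def kcEv {X K : Type} (G : Set X) (op : K → (ℕ → X) → X) : WType (kcAr G K) → X
  | WType.mk (Sum.inl x) _ => (x : X)
  | WType.mk (Sum.inr i) f => op i fun n => kcEv G op (f n)

/-- The closure of a set of at most `θ` points under `θ` operations on sequences has at most `θ`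
points, if `θ ^ ℵ₀ = θ`. -/
theorem exists_closure {X K : Type} {θ : Cardinal.{0}} (hω : θ ^ ℵ₀ = θ) (h2 : 2 ≤ θ)
    (hK : #K ≤ θ) (G : Set X) (hG : #G ≤ θ) (op : K → (ℕ → X) → X) :
    ∃ W : Set X, G ⊆ W ∧ #W ≤ θ ∧ (∀ k s, (∀ n, s n ∈ W) → op k s ∈ W) ∧
      ∀ V, G ⊆ V → (∀ k s, (∀ n, s n ∈ V) → op k s ∈ V) → W ⊆ V := by
  have hinf : ℵ₀ ≤ θ := by
    rw [← hω]
    exact (Cardinal.cantor ℵ₀).le.trans (Cardinal.power_le_power_right h2)
  have hW : #(WType (kcAr G K)) ≤ θ := by
    apply WType.cardinalMk_le_of_le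
    have h1 : ∀ a : G ⊕ K, θ ^ #(kcAr G K a) ≤ θ := by
      rintro (x | i)
      · have h0 : #(kcAr G K (Sum.inl x)) = 0 := by
          change #Empty = 0
          simp
        rw [h0, Cardinal.power_zero]
        exact Cardinal.one_le_aleph0.trans hinf
      · have h0 : #(kcAr G K (Sum.inr i)) = ℵ₀ := by
          change #ℕ = ℵ₀
          simp
        rw [h0, hω]
    calc (sum fun a : G ⊕ K => θ ^ #(kcAr G K a)) ≤ sum fun _ : G ⊕ K => θ :=
          Cardinal.sum_le_sum _ _ h1
      _ = #(G ⊕ K) * θ := by simp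
      _ ≤ θ * θ := by
          apply mul_le_mul' _ le_rfl
          rw [Cardinal.mk_sum, Cardinal.lift_id, Cardinal.lift_id]
          exact (add_le_add hG hK).trans (Cardinal.add_eq_self hinf).le
      _ = θ := Cardinal.mul_eq_self hinf
  refine ⟨range (kcEv G op), ?_, Cardinal.mk_range_le.trans hW, ?_, ?_⟩
  · intro x hx
    exact ⟨WType.mk (Sum.inl ⟨x, hx⟩) fun a => a.elim, rfl⟩
  · intro i s hs
    choose t ht using hs
    refine ⟨WType.mk (Sum.inr i) t, ?_⟩
    change op i (fun n => kcEv G op (t n)) = op i s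
    rw [show (fun n => kcEv G op (t n)) = s from funext ht]
  · rintro V hV hcl _ ⟨t, rfl⟩
    induction t with
    | mk a f ih =>
      rcases a with x | i
      · exact hV x.2
      · exact hcl i _ fun n => ih n

end CI
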