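import Mathlib

/-!
# Project CI: sequences forming a Delta-system, with labels
-/

set_option autoImplicit false

open Set Cardinal

namespace CI

section

variable {I π D D' : Type} {θ : Cardinal.{0}}

/-- a function with few values is constant on a large set -/
private theorem kd_pig {V : Type} (hθ : ℵ₀ ≤ θ) (hV : #V ≤ θ) (J : Set I) (hJ : θ < #J)
    (f : I → V) : ∃ v, θ < #{i | i ∈ J ∧ f i = v} := by
  by_contra hc
  push Not at hc
  have h1 : J ⊆ ⋃ v : V, {i | i ∈ J ∧ f i = v} := fun i hi => mem_iUnion.2 ⟨f i, hi, rfl⟩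
  have h2 : #J ≤ θ := by
    refine (mk_le_mk_of_subset h1).trans ((mk_iUnion_le_sum_mk).trans ?_)
    refine (Cardinal.sum_le_sum _ (fun _ => θ) hc).trans ?_
    rw [Cardinal.sum_const, Cardinal.lift_id, Cardinal.lift_id]
    exact (mul_le_mul' hV le_rfl).trans (Cardinal.mul_eq_self hθ).le
  exact absurd hJ (not_lt.2 h2)

private theorem kd_aux (hθ : ℵ₀ ≤ θ) (hD : #D ≤ θ) (d : I → π → D) (n : ℕ) :
    ∀ (supp : I → Finset π) (J : Set I), θ < #J → (∀ i ∈ J, (supp i).card = n) →
      ∃ (r : Finset π) (i : ℕ → I), (∀ k, i k ∈ J) ∧ Function.Injective i ∧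
        (∀ k, r ⊆ supp (i k)) ∧ (∀ k l x, k ≠ l → x ∈ supp (i k) → x ∈ supp (i l) → x ∈ r) ∧
        ∀ k l, ∀ x ∈ r, d (i k) x = d (i l) x := by
  classical
  induction n with
  | zero =>
    intro supp J hJ hn
    have hinf : Infinite J := Cardinal.infinite_iff.2 (hθ.trans hJ.le)
    refine ⟨∅, fun k => (Infinite.natEmbedding J k : J), fun k => (Infinite.natEmbedding J k).2,
      ?_, fun k => Finset.empty_subset _, ?_, ?_⟩
    · intro k l h
      exact (Infinite.natEmbedding J).injective (Subtype.ext h)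
    · intro k l x _ hx _
      rw [Finset.card_eq_zero.1 (hn _ (Infinite.natEmbedding J k).2)] at hx
      exact hx
    · intro k l x hx
      exact absurd hx (Finset.notMem_empty x)
  | succ n ih =>
    intro supp J hJ hn
    by_cases hA : ∃ x, θ < #{i | i ∈ J ∧ x ∈ supp i}
    · obtain ⟨x, hx⟩ := hA
      obtain ⟨v, hv⟩ := kd_pig hθ hD _ hx fun i => d i x
      obtain ⟨r, i, h1, h2, h3, h4, h5⟩ := ih (fun i => (supp i).erase x) _ hv (by
        rintro i ⟨⟨hi, hxi⟩, _⟩
        rw [Finset.card_erase_of_mem hxi, hn i hi, Nat.add_sub_cancel])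
      refine ⟨insert x r, i, fun k => (h1 k).1.1, h2, ?_, ?_, ?_⟩
      · intro k y hy
        rcases Finset.mem_insert.1 hy with rfl | hy
        · exact (h1 k).1.2
        · exact Finset.mem_of_mem_erase (h3 k hy)
      · intro k l y hkl hy hy'
        by_cases hyx : y = x
        · exact Finset.mem_insert.2 (Or.inl hyx)
        · exact Finset.mem_insert_of_mem (h4 k l y hkl (Finset.mem_erase.2 ⟨hyx, hy⟩)
            (Finset.mem_erase.2 ⟨hyx, hy'⟩))
      · intro k l y hy
        rcases Finset.mem_insert.1 hy with rfl | hy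
        · rw [(h1 k).2, (h1 l).2]
        · exact h5 k l y hy
    · push Not at hA
      have : Std.Symm fun i i' : I => i ≠ i' ∧ Disjoint (supp i) (supp i') :=
        ⟨fun _ _ h => ⟨h.1.symm, h.2.symm⟩⟩
      obtain ⟨i, h1, h2⟩ := exists_seq_of_forall_finset_exists' (fun i : I => i ∈ J)
        (fun i i' => i ≠ i' ∧ Disjoint (supp i) (supp i')) (h := fun s hs => by
          by_contra hc
          push Not at hc
          have h3 : J ⊆ (s : Set I) ∪ ⋃ x ∈ s.biUnion supp, {i | i ∈ J ∧ x ∈ supp i} := by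
            intro y hy
            by_cases hys : y ∈ s
            · exact Or.inl hys
            · right
              obtain ⟨z, hz, hzy⟩ := hc y hy
              have h4 := hzy (fun h => hys (h ▸ hz))
              rw [Finset.not_disjoint_iff] at h4
              obtain ⟨w, hw, hw'⟩ := h4
              exact mem_iUnion₂.2 ⟨w, Finset.mem_biUnion.2 ⟨z, hz, hw⟩, hy, hw'⟩
          have h5 : #J ≤ θ := by
            refine (mk_le_mk_of_subset h3).trans ((mk_union_le _ _).trans ?_)
            have h6 : #(⋃ x ∈ s.biUnion supp, {i | i ∈ J ∧ x ∈ supp i} : Set I) ≤ θ := by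
              refine (mk_biUnion_le _ ((s.biUnion supp : Finset π) : Set π)).trans ?_
              have h7 : (⨆ x : ((s.biUnion supp : Finset π) : Set π),
                  #{i | i ∈ J ∧ (x : π) ∈ supp i}) ≤ θ := ciSup_le' fun x => hA x
              exact (mul_le_mul' ((Cardinal.lt_aleph0_of_finite _).le.trans hθ) h7).trans
                (Cardinal.mul_eq_self hθ).le
            refine (add_le_add ?_ h6).trans (Cardinal.add_eq_self hθ).le
            exact (Cardinal.lt_aleph0_of_finite _).le.trans hθ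
          exact absurd hJ (not_lt.2 h5))
      refine ⟨∅, i, h1, ?_, fun k => Finset.empty_subset _, ?_, ?_⟩
      · intro k l hkl
        by_contra hne
        exact (h2 hne).1 hkl
      · intro k l x hkl hx hx'
        exact absurd hx' (Finset.disjoint_left.1 (h2 hkl).2 hx)
      · intro k l x hx
        exact absurd hx (Finset.notMem_empty x)

/-- A family of more than `θ` labelled finite sets contains a sequence which is a Delta-system
with the same labels on the root. -/
theorem delta_seq [DecidableEq π] (hθ : ℵ₀ ≤ θ) (hD : #D ≤ θ) (hD' : #D' ≤ θ)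
    (supp : I → Finset π) (d : I → π → D) (e : I → D') (hI : θ < #I) :
    ∃ (r : Finset π) (i : ℕ → I), Function.Injective i ∧ (∀ k, r ⊆ supp (i k)) ∧
      (∀ k l, k ≠ l → supp (i k) ∩ supp (i l) = r) ∧
      ∀ k l, e (i k) = e (i l) ∧ ∀ x ∈ r, d (i k) x = d (i l) x := by
  obtain ⟨v, hv⟩ := kd_pig hθ hD' (univ : Set I) (by rwa [mk_univ]) e
  obtain ⟨n, hn⟩ := kd_pig (V := ℕ) hθ (by rw [mk_nat]; exact hθ) _ hv fun i => (supp i).card
  obtain ⟨r, i, h1, h2, h3, h4, h5⟩ := kd_aux hθ hD d n supp _ hn fun i hi => hi.2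
  refine ⟨r, i, h2, h3, fun k l hkl => ?_, fun k l => ⟨?_, h5 k l⟩⟩
  · ext x
    rw [Finset.mem_inter]
    exact ⟨fun h => h4 k l x hkl h.1 h.2, fun h => ⟨h3 k h, h3 l h⟩⟩
  · rw [(h1 k).1.2, (h1 l).1.2]

/-- The same with a marked element of every set, outside the root. -/
theorem delta [DecidableEq π] (hθ : ℵ₀ ≤ θ) (hD : #D ≤ θ) (hD' : #D' ≤ θ)
    (supp : I → Finset π) (d : I → π → D) (e : I → D') (α : I → π)
    (hα : Function.Injective α) (_hα' : ∀ i, α i ∈ supp i) (hI : θ < #I) :
    ∃ (r : Finset π) (i : ℕ → I), Function.Injective i ∧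
      (∀ k, r ⊆ supp (i k) ∧ α (i k) ∉ r) ∧
      (∀ k l, k ≠ l → supp (i k) ∩ supp (i l) = r) ∧
      ∀ k l, e (i k) = e (i l) ∧ ∀ x ∈ r, d (i k) x = d (i l) x := by
  obtain ⟨r, i, h1, h2, h3, h4⟩ := delta_seq hθ hD hD' supp d e hI
  have hfin : {k | α (i k) ∈ r}.Finite :=
    (r.finite_toSet).preimage ((hα.comp h1).injOn)
  obtain ⟨m, hm⟩ := hfin.bddAbove
  refine ⟨r, fun k => i (k + (m + 1)), fun k l h => ?_, fun k => ⟨h2 _, fun h => ?_⟩,
    fun k l hkl => h3 _ _ (by omega), fun k l => h4 _ _⟩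
  · have h5 := h1 h
    omega
  · have h5 := hm h
    omega

end

end CI
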