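import Mathlib

/-!
# Project CI, core: iterations as finite support functions, orders, cylinders

`E γ a b` is the set of conditions which force that the label `a` is stronger than the label `b`
at the coordinate `γ`.
-/

set_option autoImplicit false
set_option linter.unusedSectionVars false
set_option linter.unusedVariables false

open Set

namespace CI

variable {π Λ : Type} [LinearOrder π] [Zero Λ]

/-- `p` on `Z`, `q` elsewhere -/
noncomputable def mix (Z : Set π) (p q : π →₀ Λ) : π →₀ Λ := by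
  classical
  exact Finsupp.onFinset (p.support ∪ q.support) (fun γ => if γ ∈ Z then p γ else q γ) (by
    intro γ h
    by_cases hz : γ ∈ Z
    · rw [if_pos hz] at h; simp [h]
    · rw [if_neg hz] at h; simp [h])

theorem mix_on {Z : Set π} {p q : π →₀ Λ} {γ : π} (h : γ ∈ Z) : mix Z p q γ = p γ := by
  classical
  simp [mix, h]

theorem mix_off {Z : Set π} {p q : π →₀ Λ} {γ : π} (h : γ ∉ Z) : mix Z p q γ = q γ := by
  classical
  simp [mix, h]

/-- equality on `Z` -/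
def EqOn' (Z : Set π) (p q : π →₀ Λ) : Prop := ∀ γ ∈ Z, p γ = q γ

theorem mix_eqOn (Z : Set π) (p q : π →₀ Λ) : EqOn' Z (mix Z p q) p := fun _ h => mix_on h

variable (E : π → Λ → Λ → Set (π →₀ Λ))

/-- the order on the coordinates in `Z` -/
def leZ (Z : Set π) (p q : π →₀ Λ) : Prop := ∀ γ ∈ Z, p ∈ E γ (p γ) (q γ)

/-- regularisation -/
def rg (Z : Set π) (X : Set (π →₀ Λ)) : Set (π →₀ Λ) :=
  {p | ∀ q, leZ E Z q p → ∃ r, leZ E Z r q ∧ r ∈ X}

/-- complement -/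
def ng (Z : Set π) (X : Set (π →₀ Λ)) : Set (π →₀ Λ) := {p | ∀ q, leZ E Z q p → q ∉ X}

/-- regular sets -/
def Reg (Z : Set π) (X : Set (π →₀ Λ)) : Prop := rg E Z X = X

/-- `Z` is a good set of coordinates: closed under memories -/
structure Gd (Z : Set π) : Prop where
  refl : ∀ γ ∈ Z, ∀ a p, p ∈ E γ a a
  top : ∀ γ ∈ Z, ∀ a p, p ∈ E γ a 0
  trans : ∀ γ ∈ Z, ∀ a b c p, p ∈ E γ a b → p ∈ E γ b c → p ∈ E γ a c
  reg : ∀ γ ∈ Z, ∀ a b, Reg E (Z ∩ Iio γ) (E γ a b)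

variable {E}

theorem leZ.mono {Z Z' : Set π} (h : Z ⊆ Z') {p q : π →₀ Λ} (hp : leZ E Z' p q) : leZ E Z p q :=
  fun γ hγ => hp γ (h hγ)

theorem leZ_congr_right {Z : Set π} {p q q' : π →₀ Λ} (h : EqOn' Z q q') :
    leZ E Z p q ↔ leZ E Z p q' := by
  constructor
  · intro h' γ hγ; rw [← h γ hγ]; exact h' γ hγ
  · intro h' γ hγ; rw [h γ hγ]; exact h' γ hγ

theorem rg_cyl {Z : Set π} {X : Set (π →₀ Λ)} {p q : π →₀ Λ} (h : EqOn' Z p q) :
    p ∈ rg E Z X ↔ q ∈ rg E Z X := by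
  constructor
  · intro hp r hr; exact hp r ((leZ_congr_right h).2 hr)
  · intro hp r hr; exact hp r ((leZ_congr_right h).1 hr)

theorem ng_cyl {Z : Set π} {X : Set (π →₀ Λ)} {p q : π →₀ Λ} (h : EqOn' Z p q) :
    p ∈ ng E Z X ↔ q ∈ ng E Z X := by
  constructor
  · intro hp r hr; exact hp r ((leZ_congr_right h).2 hr)
  · intro hp r hr; exact hp r ((leZ_congr_right h).1 hr)

/-- cylinders over `Z` -/
def Cyl (Z : Set π) (X : Set (π →₀ Λ)) : Prop := ∀ p q, EqOn' Z p q → p ∈ X → q ∈ X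

theorem Reg.cyl {Z : Set π} {X : Set (π →₀ Λ)} (h : Reg E Z X) : Cyl Z X := by
  intro p q hpq hp
  rw [← h] at hp ⊢
  exact (rg_cyl hpq).1 hp

theorem EqOn'.symm {Z : Set π} {p q : π →₀ Λ} (h : EqOn' Z p q) : EqOn' Z q p :=
  fun γ hγ => (h γ hγ).symm

theorem EqOn'.mono {Z Z' : Set π} (hZ : Z ⊆ Z') {p q : π →₀ Λ} (h : EqOn' Z' p q) :
    EqOn' Z p q := fun γ hγ => h γ (hZ hγ)

theorem Cyl.mono {Z Z' : Set π} (hZ : Z ⊆ Z') {X : Set (π →₀ Λ)} (h : Cyl Z X) : Cyl Z' X :=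
  fun p q hpq hp => h p q (hpq.mono hZ) hp

theorem leZ_congr_left {Z : Set π} (hG : ∀ γ ∈ Z, ∀ a b, Reg E (Z ∩ Iio γ) (E γ a b))
    {p p' q : π →₀ Λ} (h : EqOn' Z p p') (hp : leZ E Z p q) : leZ E Z p' q := by
  intro γ hγ
  have h1 := hp γ hγ
  rw [← h γ hγ]
  exact (hG γ hγ _ _).cyl p p' (h.mono inter_subset_left) h1

namespace Gd

variable {Z Z' : Set π}

theorem cut (h : Gd E Z) (γ : π) : Gd E (Z ∩ Iio γ) where
  refl δ hδ := h.refl δ hδ.1
  top δ hδ := h.top δ hδ.1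
  trans δ hδ := h.trans δ hδ.1
  reg δ hδ a b := by
    have : Z ∩ Iio γ ∩ Iio δ = Z ∩ Iio δ := by
      ext x; constructor
      · rintro ⟨⟨h1, _⟩, h2⟩; exact ⟨h1, h2⟩
      · rintro ⟨h1, h2⟩; exact ⟨⟨h1, lt_trans h2 hδ.2⟩, h2⟩
    rw [this]; exact h.reg δ hδ.1 a b

theorem le_refl (h : Gd E Z) (p : π →₀ Λ) : leZ E Z p p := fun γ hγ => h.refl γ hγ _ _

variable [WellFoundedLT π]

theorem trans_aux (h : Gd E Z) (γ : π) : ∀ p q r : π →₀ Λ, leZ E (Z ∩ Iio γ) p q →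
    leZ E (Z ∩ Iio γ) q r → leZ E (Z ∩ Iio γ) p r := by
  induction γ using WellFoundedLT.induction with
  | ind γ ih =>
    intro p q r hpq hqr δ hδ
    have h1 := hpq δ hδ
    have h2 := hqr δ hδ
    refine h.trans δ hδ.1 _ _ _ _ h1 ?_
    rw [← h.reg δ hδ.1] at h2 ⊢
    intro s hs
    have hZ : Z ∩ Iio δ ⊆ Z ∩ Iio γ := fun x hx => ⟨hx.1, lt_trans hx.2 hδ.2⟩
    exact h2 s (ih δ hδ.2 s p q hs (hpq.mono hZ))

theorem le_trans (h : Gd E Z) {p q r : π →₀ Λ} (hpq : leZ E Z p q) (hqr : leZ E Z q r) :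
    leZ E Z p r := by
  intro δ hδ
  have h1 := hpq δ hδ
  have h2 := hqr δ hδ
  refine h.trans δ hδ _ _ _ _ h1 ?_
  rw [← h.reg δ hδ] at h2 ⊢
  intro s hs
  exact h2 s (h.trans_aux δ s p q hs (hpq.mono inter_subset_left))

theorem down (h : Gd E Z) {X : Set (π →₀ Λ)} (hX : Reg E Z X) {p q : π →₀ Λ} (hp : p ∈ X)
    (hq : leZ E Z q p) : q ∈ X := by
  rw [← hX] at hp ⊢
  intro r hr
  exact hp r (h.le_trans hr hq)

theorem reg_rg (h : Gd E Z) (X : Set (π →₀ Λ)) : Reg E Z (rg E Z X) := by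
  ext p
  constructor
  · intro hp q hq
    obtain ⟨r, hr, hrX⟩ := hp q hq
    obtain ⟨s, hs, hsX⟩ := hrX r (h.le_refl r)
    exact ⟨s, h.le_trans hs hr, hsX⟩
  · intro hp q hq
    exact ⟨q, h.le_refl q, fun r hr => hp r (h.le_trans hr hq)⟩

theorem reg_ng (h : Gd E Z) (X : Set (π →₀ Λ)) (hX : ∀ p q, p ∈ X → leZ E Z q p → q ∈ X) :
    Reg E Z (ng E Z X) := by
  ext p
  constructor
  · intro hp q hq hqX
    obtain ⟨r, hr, hrX⟩ := hp q hq
    exact hrX r (h.le_refl r) (hX q r hqX hr)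
  · intro hp q hq
    exact ⟨q, h.le_refl q, fun r hr => hp r (h.le_trans hr hq)⟩

theorem mem_of_dense (h : Gd E Z) {X : Set (π →₀ Λ)} (hX : Reg E Z X) {p : π →₀ Λ}
    (hp : ∀ q, leZ E Z q p → ∃ r, leZ E Z r q ∧ r ∈ X) : p ∈ X := by
  rw [← hX]; exact hp

/-- regular from: downward closed, and dense below `p` implies membership -/
theorem reg_mk (h : Gd E Z) {X : Set (π →₀ Λ)} (h1 : ∀ p q, p ∈ X → leZ E Z q p → q ∈ X)
    (h2 : ∀ p, (∀ q, leZ E Z q p → ∃ r, leZ E Z r q ∧ r ∈ X) → p ∈ X) : Reg E Z X := by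
  ext p
  constructor
  · exact h2 p
  · intro hp q hq
    exact ⟨q, h.le_refl q, h1 p q hp hq⟩

theorem reg_iInter (h : Gd E Z) {ι : Sort*} {X : ι → Set (π →₀ Λ)} (hX : ∀ i, Reg E Z (X i)) :
    Reg E Z (⋂ i, X i) := by
  refine h.reg_mk ?_ ?_
  · intro p q hp hq
    simp only [mem_iInter] at hp ⊢
    exact fun i => h.down (hX i) (hp i) hq
  · intro p hp
    simp only [mem_iInter]
    intro i
    refine h.mem_of_dense (hX i) fun q hq => ?_
    obtain ⟨r, hr, hrX⟩ := hp q hq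
    exact ⟨r, hr, by simp only [mem_iInter] at hrX; exact hrX i⟩

theorem reg_inter (h : Gd E Z) {X Y : Set (π →₀ Λ)} (hX : Reg E Z X) (hY : Reg E Z Y) :
    Reg E Z (X ∩ Y) := by
  refine h.reg_mk ?_ ?_
  · intro p q hp hq
    exact ⟨h.down hX hp.1 hq, h.down hY hp.2 hq⟩
  · intro p hp
    constructor
    · refine h.mem_of_dense hX fun q hq => ?_
      obtain ⟨r, hr, hrX⟩ := hp q hq
      exact ⟨r, hr, hrX.1⟩
    · refine h.mem_of_dense hY fun q hq => ?_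
      obtain ⟨r, hr, hrX⟩ := hp q hq
      exact ⟨r, hr, hrX.2⟩

theorem reg_univ (h : Gd E Z) : Reg E Z (univ : Set (π →₀ Λ)) :=
  h.reg_mk (fun _ _ _ _ => mem_univ _) (fun _ _ => mem_univ _)

theorem reg_empty (h : Gd E Z) : Reg E Z (∅ : Set (π →₀ Λ)) :=
  h.reg_mk (fun _ _ hp _ => hp) (fun p hp => by
    obtain ⟨r, _, hr⟩ := hp p (h.le_refl p)
    exact hr)

theorem ng_reg (h : Gd E Z) {X : Set (π →₀ Λ)} (hX : Reg E Z X) : Reg E Z (ng E Z X) :=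
  h.reg_ng X fun _ _ hp hq => h.down hX hp hq

theorem ng_ng (h : Gd E Z) {X : Set (π →₀ Λ)} (hX : Reg E Z X) : ng E Z (ng E Z X) = X := by
  ext p
  constructor
  · intro hp
    refine h.mem_of_dense hX fun q hq => ?_
    have := hp q hq
    simp only [ng, mem_ofPred_eq, not_forall, not_not] at this
    obtain ⟨r, hr, hrX⟩ := this
    exact ⟨r, hr, hrX⟩
  · intro hp q hq hqX
    exact hqX q (h.le_refl q) (h.down hX hp hq)

/-! ### two good sets -/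

omit [WellFoundedLT π] in
/-- projection -/
theorem le_mix (h : Gd E Z) (h' : Gd E Z') {p q : π →₀ Λ} (hp : leZ E Z p q) :
    leZ E Z' (mix Z p q) q := by
  intro γ hγ
  by_cases hz : γ ∈ Z
  · rw [mix_on hz]
    exact (h.reg γ hz _ _).cyl p _ ((mix_eqOn Z p q).symm.mono inter_subset_left) (hp γ hz)
  · rw [mix_off hz]
    exact h'.refl γ hγ _ _

omit [WellFoundedLT π] in
theorem rg_eq (h : Gd E Z) (h' : Gd E Z') (hZ : Z ⊆ Z') {X : Set (π →₀ Λ)} (hX : Cyl Z X) :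
    rg E Z X = rg E Z' X := by
  ext p
  constructor
  · intro hp q hq
    obtain ⟨r, hr, hrX⟩ := hp q (hq.mono hZ)
    exact ⟨mix Z r q, h.le_mix h' hr, hX r _ (mix_eqOn Z r q).symm hrX⟩
  · intro hp q hq
    obtain ⟨r, hr, hrX⟩ := hp (mix Z q p) (h.le_mix h' hq)
    exact ⟨r, (leZ_congr_right (mix_eqOn Z q p)).1 (hr.mono hZ), hrX⟩

omit [WellFoundedLT π] in
theorem ng_eq (h : Gd E Z) (h' : Gd E Z') (hZ : Z ⊆ Z') {X : Set (π →₀ Λ)} (hX : Cyl Z X) :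
    ng E Z X = ng E Z' X := by
  ext p
  constructor
  · intro hp q hq
    exact hp q (hq.mono hZ)
  · intro hp q hq hqX
    exact hp (mix Z q p) (h.le_mix h' hq) (hX q _ (mix_eqOn Z q p).symm hqX)

omit [WellFoundedLT π] in
theorem reg_up (h : Gd E Z) (h' : Gd E Z') (hZ : Z ⊆ Z') {X : Set (π →₀ Λ)} (hX : Reg E Z X) :
    Reg E Z' X := by
  have := h.rg_eq h' hZ hX.cyl
  rw [Reg, ← this]; exact hX

omit [WellFoundedLT π] in
theorem reg_of_cyl (h : Gd E Z) (h' : Gd E Z') (hZ : Z ⊆ Z') {X : Set (π →₀ Λ)}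
    (hX : Reg E Z' X) (hc : Cyl Z X) : Reg E Z X := by
  have := h.rg_eq h' hZ hc
  rw [Reg, this]; exact hX

omit [WellFoundedLT π] in
/-- correctness: the projection to `Z` of a cylinder over `Z'` is a cylinder over `Z ∩ Z'` -/
theorem rg_inter (h : Gd E Z) (hI : Gd E (Z ∩ Z')) {X : Set (π →₀ Λ)}
    (hX : Cyl Z' X) : rg E Z X = rg E (Z ∩ Z') X := by
  ext p
  constructor
  · intro hp q hq
    obtain ⟨r, hr, hrX⟩ := hp (mix (Z ∩ Z') q p) (hI.le_mix h hq)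
    exact ⟨r, (leZ_congr_right (mix_eqOn _ q p)).1 (hr.mono inter_subset_left), hrX⟩
  · intro hp q hq
    obtain ⟨r, hr, hrX⟩ := hp q (hq.mono inter_subset_left)
    refine ⟨mix Z' r q, ?_, hX r _ (mix_eqOn _ _ _).symm hrX⟩
    intro γ hγ
    by_cases hz : γ ∈ Z'
    · rw [mix_on hz]
      have h1 := hr γ ⟨hγ, hz⟩
      exact (hI.reg γ ⟨hγ, hz⟩ _ _).cyl r _ ((mix_eqOn Z' r q).symm.mono fun x hx => hx.1.2) h1
    · rw [mix_off hz]
      exact h.refl γ hγ _ _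

end Gd

end CI
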