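import Mathlib

/-!
# Project CI (MP_d090fc_lc): package P1, Sikorski extension with prescribed lower bounds
-/

set_option autoImplicit false

namespace CI

/-- the finite intersection property of a set of pairs -/
private def SikP {C R : Type*} [BooleanAlgebra C] [CompleteBooleanAlgebra R]
    (F : Set (C × R)) : Prop :=
  ∀ s : Finset (C × R), (↑s : Set (C × R)) ⊆ F → s.inf Prod.fst = ⊥ → s.inf Prod.snd = ⊥

private theorem sik_insert {C R : Type*} [BooleanAlgebra C] [CompleteBooleanAlgebra R]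
    {F : Set (C × R)} {e : C} {v : R}
    (h : ∀ s : Finset (C × R), (↑s : Set (C × R)) ⊆ F → s.inf Prod.fst ⊓ e = ⊥ →
      s.inf Prod.snd ⊓ v = ⊥) (h0 : SikP F) : SikP (insert (e, v) F) := by
  classical
  intro s hs h1
  by_cases h2 : (e, v) ∈ s
  · have h3 : (↑(s.erase (e, v)) : Set (C × R)) ⊆ F := by
      intro q hq
      rw [Finset.mem_coe, Finset.mem_erase] at hq
      rcases hs (Finset.mem_coe.2 hq.2) with h4 | h4
      · exact absurd h4 hq.1
      · exact h4
    have h4 := h (s.erase (e, v)) h3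
    rw [← Finset.insert_erase h2, Finset.inf_insert] at h1 ⊢
    rw [inf_comm] at h1 ⊢
    exact h4 h1
  · refine h0 s (fun q hq => ?_) h1
    rcases hs hq with h4 | h4
    · rw [h4] at hq
      exact absurd hq h2
    · exact h4

/-- Sikorski's extension theorem: a set of pairs with the finite intersection property gives a
homomorphism -/
theorem sikorski {C R : Type*} [BooleanAlgebra C] [CompleteBooleanAlgebra R] (F : Set (C × R))
    (h : ∀ s : Finset (C × R), (↑s : Set (C × R)) ⊆ F → s.inf Prod.fst = ⊥ →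
      s.inf Prod.snd = ⊥) :
    ∃ φ : C → R, (∀ x y, φ (x ⊓ y) = φ x ⊓ φ y) ∧ (∀ x, φ xᶜ = (φ x)ᶜ) ∧
      ∀ e v, (e, v) ∈ F → v ≤ φ e := by
  classical
  obtain ⟨G, hFG, hG⟩ := zorn_subset_nonempty {G : Set (C × R) | SikP G} (by
    intro c hc hch hne
    refine ⟨⋃₀ c, ?_, fun s hs => Set.subset_sUnion_of_mem hs⟩
    intro s hs h1
    obtain ⟨t, ht, hst⟩ : ∃ t ∈ c, (↑s : Set (C × R)) ⊆ t := by
      exact DirectedOn.exists_mem_subset_of_finset_subset_biUnion hne (hch.directedOn)
        (by rw [← Set.sUnion_eq_biUnion]; exact hs)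
    exact hc ht s hst h1) F h
  have hGP : SikP G := hG.prop
  have hmax : ∀ q : C × R, SikP (insert q G) → q ∈ G := fun q hq =>
    hG.le_of_ge hq (Set.subset_insert _ _) (Set.mem_insert _ _)
  -- closure
  have h1 : ∀ (s : Finset (C × R)) (e : C) (v : R), (↑s : Set (C × R)) ⊆ G →
      s.inf Prod.fst ≤ e → v ≤ s.inf Prod.snd → (e, v) ∈ G := by
    intro s e v hs he hv
    refine hmax _ (sik_insert (fun t ht h2 => ?_) hGP)
    have h3 := hGP (t ∪ s) (by rw [Finset.coe_union]; exact Set.union_subset ht hs) (by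
      rw [Finset.inf_union, eq_bot_iff, ← h2]
      exact inf_le_inf_left _ he)
    rw [Finset.inf_union] at h3
    rw [eq_bot_iff, ← h3]
    exact inf_le_inf_left _ hv
  set φ : C → R := fun e => sSup {v | (e, v) ∈ G} with hφ
  have hle : ∀ e v, (e, v) ∈ G → v ≤ φ e := fun e v hv => le_sSup hv
  have h2 : ∀ e, (e, φ e) ∈ G := by
    intro e
    refine hmax _ (sik_insert (fun t ht h3 => ?_) hGP)
    rw [hφ]
    simp only
    rw [inf_sSup_eq, eq_bot_iff]
    refine iSup₂_le fun v hv => ?_
    have h4 := hGP (insert (e, v) t) (by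
      rw [Finset.coe_insert]
      exact Set.insert_subset hv ht) (by
      rw [Finset.inf_insert, inf_comm]
      exact h3)
    rw [Finset.inf_insert, inf_comm] at h4
    exact h4.le
  have hmono : ∀ x y, x ≤ y → φ x ≤ φ y := by
    intro x y hxy
    refine hle _ _ (h1 {(x, φ x)} y (φ x) ?_ ?_ ?_)
    · rw [Finset.coe_singleton, Set.singleton_subset_iff]
      exact h2 x
    · rw [Finset.inf_singleton]
      exact hxy
    · rw [Finset.inf_singleton]
  have hinf : ∀ x y, φ (x ⊓ y) = φ x ⊓ φ y := by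
    intro x y
    refine le_antisymm (le_inf (hmono _ _ inf_le_left) (hmono _ _ inf_le_right)) ?_
    refine hle _ _ (h1 {(x, φ x), (y, φ y)} (x ⊓ y) (φ x ⊓ φ y) ?_ ?_ ?_)
    · rw [Finset.coe_insert, Finset.coe_singleton]
      exact Set.insert_subset (h2 x) (Set.singleton_subset_iff.2 (h2 y))
    · rw [Finset.inf_insert, Finset.inf_singleton]
    · rw [Finset.inf_insert, Finset.inf_singleton]
  have hbot : φ ⊥ = ⊥ := by
    have h3 := hGP {((⊥ : C), φ ⊥)} (by
      rw [Finset.coe_singleton, Set.singleton_subset_iff]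
      exact h2 ⊥) (by rw [Finset.inf_singleton])
    rwa [Finset.inf_singleton] at h3
  refine ⟨φ, hinf, fun x => ?_, fun e v hv => hle e v (hFG hv)⟩
  refine le_antisymm ?_ (hle _ _ (hmax _ (sik_insert (fun t ht h3 => ?_) hGP)))
  · refine le_compl_iff_disjoint_right.2 (disjoint_iff.2 ?_)
    rw [← hinf, inf_comm, inf_compl_self, hbot]
  · have h4 : t.inf Prod.fst ≤ x := by
      rw [← disjoint_compl_right_iff, disjoint_iff]
      exact h3
    have h5 := hle _ _ (h1 t x _ ht h4 le_rfl)
    exact disjoint_iff.1 (disjoint_compl_right_iff.2 h5)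

end CI
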